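import Pool.Agent.H39.TO.Targets

/-!
# Coxeter groups of rank three: the action on hyperbolic space
-/

set_option autoImplicit false

namespace Pool.Agent.H19.TOH

open Pool.Agent.H57.CP Pool.Agent.H39.TO

theorem pf_PSI (h1 : T_SGE) (h2 : T_MKI) (h3 : T_SPN) : T_PSI := by
  intro M al σ hN hσ
  obtain ⟨hL, hF, -⟩ := h1 M al σ hN hσ
  choose g hg using fun w => h2 (σ w) (hL w)
  have hmul : ∀ w w', g (w * w') = g w * g w' := by
    intro w w'
    refine Equiv.ext fun x => Subtype.ext ?_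
    rw [← (hg (w * w')).2 x, map_mul]
    show σ w (σ w' x.1) = (g w (g w' x)).1
    rw [(hg w').2 x, (hg w).2]
  refine ⟨MonoidHom.mk' g hmul, fun w => hg w, ?_⟩
  rw [injective_iff_map_eq_one]
  intro w hw
  apply hF w
  apply h3
  intro x
  have h4 : g w = 1 := hw
  rw [(hg w).2 x, h4]
  rfl

end Pool.Agent.H19.TOH
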