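import Pool.Agent.H39.TO.Targets

/-!
# Coxeter groups of rank three: the geometric representation
-/

set_option autoImplicit false

namespace Pool.Agent.H19.TOH

open Pool.Agent.H57.CP Pool.Agent.H39.TO

theorem pf_REP (h2 : T_BRD) (h3 : T_LOR) : T_REP := by
  intro M al hN
  have hl : M.IsLiftable (fun i => refl (al i)) := by
    intro i j
    by_cases hij : i = j
    · subst hij
      rw [M.diagonal i, pow_one]
      exact (h3.2.2 _ (hN.unit i)).2
    · by_cases h0 : M i j = 0
      · rw [h0, pow_zero]
      · have h1 := M.off_diagonal i j hij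
        exact h2 _ _ _ (by omega) (hN.unit i) (hN.unit j) (hN.fin i j hij h0)
  exact ⟨M.toCoxeterSystem.lift ⟨_, hl⟩, fun i => CoxeterSystem.lift_apply_simple _ hl i⟩

end Pool.Agent.H19.TOH
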