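import Pool.Agent.H39.TO.Targets

/-!
# Two-orbit polyhedra: sizes and classes
-/

set_option autoImplicit false

namespace Pool.Agent.H19.TOH

open Pool.Agent.H57.CP Pool.Agent.H39.TO

/-- the size of the face of a flag -/
noncomputable def fsz (Φ : Fg) : ℕ∞ := (vts Φ.2.2).encard

/-- the degree of the vertex of a flag -/
noncomputable def dgr (K : Geo) (Φ : Fg) : ℕ∞ := (eds K Φ.1).encard

theorem fl_vert {K : Geo} (hK : IsGeo K) {Φ : Fg} (h : Fl K Φ) : Φ.1 ∈ K.V := by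
  obtain ⟨h1, h2, h3⟩ := h
  obtain ⟨x, hx, y, hy, -, he⟩ := hK.ed _ ((hK.fs _ h3).1 h2)
  rw [he] at h1
  rcases h1 with h1 | h1
  · rw [h1]; exact hx
  · rw [h1]; exact hy

theorem fs_eq {K : Geo} (hK : IsGeo K) : FS K = {n | ∃ Φ, Fl K Φ ∧ fsz Φ = n} := by
  ext n
  constructor
  · rintro ⟨f, hf, hn⟩
    obtain ⟨h1, e, he⟩ := hK.fs f hf
    obtain ⟨x, hx, y, hy, -, hxy⟩ := hK.ed e (h1 he)
    exact ⟨(x, e, f), ⟨by rw [hxy]; exact Or.inl rfl, he, hf⟩, hn⟩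
  · rintro ⟨Φ, hΦ, hn⟩
    exact ⟨Φ.2.2, hΦ.2.2, hn⟩

theorem dg_eq {K : Geo} (hK : IsGeo K) : DG K = {n | ∃ Φ, Fl K Φ ∧ dgr K Φ = n} := by
  ext n
  constructor
  · rintro ⟨x, hx, hn⟩
    obtain ⟨e, he, hxe⟩ := hK.ve x hx
    have h2 := hK.ef e he
    have h3 : {f | f ∈ K.F ∧ e ∈ f}.Nonempty := by
      rw [Set.nonempty_iff_ne_empty]
      intro h0
      rw [h0, Set.ncard_empty] at h2
      omega
    obtain ⟨f, hf, hef⟩ := h3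
    exact ⟨(x, e, f), ⟨hxe, hef, hf⟩, hn⟩
  · rintro ⟨Φ, hΦ, hn⟩
    exact ⟨Φ.1, fl_vert hK hΦ, hn⟩

/-- the values of an invariant function on the flags -/
theorem vals {K : Geo} (s : Fg → ℕ∞) (hs : ∀ Φ Ψ, Eqv K Φ Ψ → s Φ = s Ψ)
    {Φ₀ Ψ₀ : Fg} (hΦ : Fl K Φ₀) (hΨ : Fl K Ψ₀) (hne : ¬ Eqv K Φ₀ Ψ₀) (hT : Two K) :
    {n | ∃ Φ, Fl K Φ ∧ s Φ = n} = {s Φ₀, s Ψ₀} := by
  ext n
  constructor
  · rintro ⟨Θ, hΘ, rfl⟩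
    rcases hT.le_two Φ₀ Ψ₀ Θ hΦ hΨ hΘ with h | h | h
    · exact absurd h hne
    · exact Or.inr (hs _ _ h).symm
    · exact Or.inl (hs _ _ h).symm
  · rintro (h | h)
    · exact ⟨Φ₀, hΦ, h.symm⟩
    · exact ⟨Ψ₀, hΨ, h.symm⟩

/-- an adjacent flag in the other orbit which has the same value -/
theorem eq_of_out {K : Geo} (s : Fg → ℕ∞) (hs : ∀ Φ Ψ, Eqv K Φ Ψ → s Φ = s Ψ)
    {Φ₀ Ψ₀ Θ : Fg} (hΦ : Fl K Φ₀) (hΨ : Fl K Ψ₀) (hne : ¬ Eqv K Φ₀ Ψ₀) (hT : Two K)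
    (hΘ : Fl K Θ) (h1 : ¬ Eqv K Φ₀ Θ) (h2 : s Φ₀ = s Θ) : s Φ₀ = s Ψ₀ := by
  rcases hT.le_two Φ₀ Ψ₀ Θ hΦ hΨ hΘ with h | h | h
  · exact absurd h hne
  · rw [h2]
    exact (hs _ _ h).symm
  · exact absurd h h1

/-- a value which is preserved by the adjacencies is constant -/
theorem eq_of_path {K : Geo} (h2 : T_FLC) (hK : IsGeo K) (s : Fg → ℕ∞) {Φ₀ Ψ₀ : Fg}
    (hΦ : Fl K Φ₀) (hΨ : Fl K Ψ₀)
    (h : ∀ Φ Ψ, A0 K Φ Ψ ∨ A1 K Φ Ψ ∨ A2 K Φ Ψ → s Φ = s Ψ) : s Φ₀ = s Ψ₀ := by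
  have h3 := h2 K hK Φ₀ Ψ₀ hΦ hΨ
  induction h3 with
  | refl => rfl
  | @tail b c hab hbc ih =>
    have hb : Fl K b := by
      rcases hbc with hbc | hbc | hbc
      · exact hbc.1
      · exact hbc.1
      · exact hbc.1
    exact (ih hb).trans (h _ _ hbc)

theorem pf_SIN (h1 : T_FLA) (h2 : T_FLC) (h3 : T_EQV) : T_SIN := by
  intro K hK hT
  obtain ⟨-, -, -, hsz⟩ := h3 K
  obtain ⟨Φ₀, Ψ₀, hΦ, hΨ, hne⟩ := hT.two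
  have hs : ∀ Φ Ψ, Eqv K Φ Ψ → fsz Φ = fsz Ψ := fun Φ Ψ h => (hsz Φ Ψ h).1
  have ht : ∀ Φ Ψ, Eqv K Φ Ψ → dgr K Φ = dgr K Ψ := fun Φ Ψ h => (hsz Φ Ψ h).2
  have hFS : FS K = {fsz Φ₀, fsz Ψ₀} := by
    rw [fs_eq hK]
    exact vals fsz hs hΦ hΨ hne hT
  have hDG : DG K = {dgr K Φ₀, dgr K Ψ₀} := by
    rw [dg_eq hK]
    exact vals (dgr K) ht hΦ hΨ hne hT
  obtain ⟨⟨Θ0, hΘ0, -⟩, ⟨Θ1, hΘ1, -⟩, ⟨Θ2, hΘ2, -⟩⟩ := h1 K hK Φ₀ hΦ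
  refine ⟨⟨_, _, hFS⟩, ⟨_, _, hDG⟩, ?_, ?_⟩
  · intro h
    have key : fsz Φ₀ = fsz Ψ₀ := by
      rcases h with h | h | h
      · exact eq_of_out fsz hs hΦ hΨ hne hT hΘ0.2.1 (h _ _ hΘ0)
          (by unfold fsz; rw [hΘ0.2.2.2.2])
      · exact eq_of_out fsz hs hΦ hΨ hne hT hΘ1.2.1 (h _ _ hΘ1)
          (by unfold fsz; rw [hΘ1.2.2.2.2])
      · refine eq_of_path h2 hK fsz hΦ hΨ fun Φ Ψ hab => ?_
        rcases hab with hab | hab | hab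
        · unfold fsz; rw [hab.2.2.2.2]
        · unfold fsz; rw [hab.2.2.2.2]
        · exact hs _ _ (h _ _ hab)
    exact ⟨fsz Ψ₀, by rw [hFS, key, Set.pair_eq_singleton]⟩
  · intro h
    have key : dgr K Φ₀ = dgr K Ψ₀ := by
      rcases h with h | h | h
      · refine eq_of_path h2 hK (dgr K) hΦ hΨ fun Φ Ψ hab => ?_
        rcases hab with hab | hab | hab
        · exact ht _ _ (h _ _ hab)
        · unfold dgr; rw [hab.2.2.1]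
        · unfold dgr; rw [hab.2.2.1]
      · exact eq_of_out (dgr K) ht hΦ hΨ hne hT hΘ1.2.1 (h _ _ hΘ1)
          (by unfold dgr; rw [hΘ1.2.2.1])
      · exact eq_of_out (dgr K) ht hΦ hΨ hne hT hΘ2.2.1 (h _ _ hΘ2)
          (by unfold dgr; rw [hΘ2.2.2.1])
    exact ⟨dgr K Ψ₀, by rw [hDG, key, Set.pair_eq_singleton]⟩

end Pool.Agent.H19.TOH
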